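import Pool.Agent.helper63.Dg4.Spec

/-!
# Generic sequences (project dg4, row GEN, problem MP_a87378_lc)
-/

namespace Pool.Agent.helper63.Dg4

open Encodable Pool.Agent.helper63.Diag

theorem gen_exists_sat (p : Cond) : ∃ g, Sat p g := by
  obtain ⟨v, hv⟩ := p.ne
  refine ⟨fun i => p.σ.getD i 0, ?_, v, hv, fun i hi => ?_⟩
  · apply List.ext_getElem
    · simp
    · intro i h1 h2
      simp [res, List.getElem?_eq_getElem h2]
  · have h0 : p.σ.getD i 0 = 0 := by
      rw [List.getD_eq_getElem?_getD, List.getElem?_eq_none hi]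
      rfl
    exact ⟨fun _ => h0, fun _ => Or.inl h0⟩

theorem gen_isClosed_ok (ab : List ℕ) (fl : ℕ → ℕ) (i y : ℕ) :
    IsClosed {v : ℕ → ℕ | Ok ab fl v i y} := by
  by_cases hy : y = 0
  · have h1 : {v : ℕ → ℕ | Ok ab fl v i y} = Set.univ :=
      Set.eq_univ_of_forall fun v => ⟨fun _ => hy, fun _ => Or.inl hy⟩
    rw [h1]
    exact isClosed_univ
  · by_cases hA : ab.getD (col i) 0 = 1
    · have h1 : {v : ℕ → ℕ | Ok ab fl v i y} = ∅ :=
        Set.eq_empty_of_forall_notMem fun v hv => hy (hv.1 hA)
      rw [h1]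
      exact isClosed_empty
    · by_cases hB : ab.getD (col i) 0 = 2
      · have h1 : {v : ℕ → ℕ | Ok ab fl v i y} =
            {v | v (Nat.pair (col i) (y - 1)) = fl (v (Nat.pair (col i) (el i)))} := by
          apply Set.Subset.antisymm
          · intro v hv
            rcases hv.2 hB with h | h
            · exact absurd h hy
            · exact h
          · intro v hv
            exact ⟨fun h => absurd h hA, fun _ => Or.inr hv⟩
        rw [h1]
        exact isClosed_eq (continuous_apply _)
          (continuous_of_discreteTopology.comp (continuous_apply _))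
      · have h1 : {v : ℕ → ℕ | Ok ab fl v i y} = Set.univ :=
          Set.eq_univ_of_forall fun v => ⟨fun h => absurd h hA, fun h => absurd h hB⟩
        rw [h1]
        exact isClosed_univ

theorem gen_res_inj {g X : ℕ → ℕ} {k : ℕ} (h : res g k = res X k) {i : ℕ} (hi : i < k) :
    g i = X i := by
  have h1 : (res g k).getD i 0 = (res X k).getD i 0 := by rw [h]
  rwa [res_getD g hi, res_getD X hi] at h1

theorem GEN (hEXT : EXT_stmt) : GEN_stmt := by
  classical
  intro P DD hD hcl p0 hp0
  have step : ∀ (m : ℕ) (p : {p : Cond // P p}), ∃ q : {p : Cond // P p}, Le q.1 p.1 ∧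
      p.1.σ.length < q.1.σ.length ∧ DD m.unpair.1 q.1 := by
    rintro m ⟨p, hp⟩
    obtain ⟨g, hg⟩ := gen_exists_sat p
    obtain ⟨q1, h1, h2, h3, -, -, -⟩ := hEXT p g (p.σ.length + 1) hg (Nat.le_succ _)
    obtain ⟨q2, h5, h6, h7⟩ := hD q1 (hcl p q1 hp h1 h2) m.unpair.1
    refine ⟨⟨q2, h5⟩, Le.trans h6 h1, ?_, h7⟩
    have ha := length_le_of_take h6.2.1
    have hb : q1.σ.length = p.σ.length + 1 := by rw [h3, res_length]
    show p.σ.length < q2.σ.length
    omega
  choose nxt hn1 hn2 hn3 using step
  let sq : ℕ → {p : Cond // P p} := fun m => Nat.rec ⟨p0, hp0⟩ (fun m s => nxt m s) m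
  let s : ℕ → Cond := fun m => (sq m).1
  have hle : ∀ m k, m ≤ k → Le (s k) (s m) := by
    intro m k h
    induction h with
    | refl => exact Le.refl _
    | step h ih =>
      rename_i k
      exact Le.trans (show Le (s (k + 1)) (s k) from hn1 k (sq k)) ih
  have hlen : ∀ m, m ≤ (s m).σ.length := by
    intro m
    induction m with
    | zero => exact Nat.zero_le _
    | succ m ih =>
      have h1 : (s m).σ.length < (s (m + 1)).σ.length := hn2 m (sq m)
      omega
  let X : ℕ → ℕ := fun i => (s (i + 1)).σ.getD i 0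
  have hX : ∀ m, res X (s m).σ.length = (s m).σ := by
    intro m
    apply List.ext_getElem
    · simp
    · intro i h1 h2
      have h3 : (res X (s m).σ.length).getD i 0 = (s m).σ.getD i 0 := by
        rw [res_getD X h2]
        show (s (i + 1)).σ.getD i 0 = _
        rcases le_total (i + 1) m with h | h
        · exact getD_of_take (hle _ _ h).2.1 (hlen (i + 1))
        · exact (getD_of_take (hle _ _ h).2.1 h2).symm
      rw [List.getD_eq_getElem?_getD, List.getD_eq_getElem?_getD,
        List.getElem?_eq_getElem h1, List.getElem?_eq_getElem h2] at h3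
      simpa using h3
  refine ⟨s, X, rfl, fun m => (sq m).2, hle, fun i m0 => ?_, hlen, fun m => ?_⟩
  · refine ⟨Nat.pair i m0 + 1, ?_, ?_⟩
    · have := Nat.right_le_pair i m0
      omega
    · have h1 := hn3 (Nat.pair i m0) (sq (Nat.pair i m0))
      rw [Nat.unpair_pair] at h1
      exact h1
  · refine ⟨hX m, ?_⟩
    let S : ℕ → Set (ℕ → ℕ) := fun k => {v | ¬ (s m).Bad (res v k)} ∩
      {v | (s m).σ.length ≤ k → Ok (s m).ab (s m).fl v k (X k)}
    have hS : ∀ k, IsClosed (S k) := by
      intro k
      refine IsClosed.inter (isClopen_dep k (fun l => ¬ (s m).Bad l)).isClosed ?_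
      by_cases hk : (s m).σ.length ≤ k
      · have h1 : {v : ℕ → ℕ | (s m).σ.length ≤ k → Ok (s m).ab (s m).fl v k (X k)} =
            {v | Ok (s m).ab (s m).fl v k (X k)} := by
          apply Set.Subset.antisymm
          · intro v hv
            exact hv hk
          · intro v hv _
            exact hv
        rw [h1]
        exact gen_isClosed_ok _ _ _ _
      · have h1 : {v : ℕ → ℕ | (s m).σ.length ≤ k → Ok (s m).ab (s m).fl v k (X k)} =
            Set.univ := Set.eq_univ_of_forall fun v h => absurd h hk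
        rw [h1]
        exact isClosed_univ
    obtain ⟨v, hv1, hv2⟩ := compactness (n := (s m).n) S hS (by
      intro k
      obtain ⟨g, hg⟩ := gen_exists_sat (s (max (k + 1) m))
      obtain ⟨-, v, hv, hv'⟩ := (hle m _ (le_max_right (k + 1) m)).2.2 g hg
      have hgX : ∀ i ≤ k, g i = X i := by
        intro i hi
        refine gen_res_inj (k := (s (max (k + 1) m)).σ.length) ?_ ?_
        · rw [hX]
          exact hg.1
        · have h1 := hlen (max (k + 1) m)
          have h2 := le_max_left (k + 1) m
          omega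
      refine ⟨v, hv.1, fun j hj => ⟨hv.2 j, fun hj' => ?_⟩⟩
      have h1 := hv' j hj'
      rw [hgX j hj] at h1
      exact h1)
    exact ⟨v, ⟨hv1, fun k => (hv2 k).1⟩, fun i hi => (hv2 i).2 hi⟩

end Pool.Agent.helper63.Dg4
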